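import Mathlib

/-!
# Independence complexes of circle graphs: definitions (problems MP_dce81a, MP_78b93b)
-/

namespace Pool.Agent.R805.CircG

/-- A chord diagram on the index set `V`: the chord `v` joins the points `a v < b v` of the line
(the circle cut open at a point); the endpoints are pairwise distinct. -/
structure ChordDiagram (V : Type) where
  a : V → ℕ
  b : V → ℕ
  lt : ∀ v, a v < b v
  distinct : Function.Injective (Sum.elim a b)

/-- Two chords are linked (cross) when their endpoints alternate. -/
def ChordDiagram.Linked {V : Type} (D : ChordDiagram V) (v w : V) : Prop :=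
  (D.a v < D.a w ∧ D.a w < D.b v ∧ D.b v < D.b w) ∨
    (D.a w < D.a v ∧ D.a v < D.b w ∧ D.b w < D.b v)

/-- The intersection graph of a chord diagram. -/
def ChordDiagram.graph {V : Type} (D : ChordDiagram V) : SimpleGraph V where
  Adj v w := D.Linked v w
  symm := ⟨fun _ _ h => h.elim Or.inr Or.inl⟩
  loopless := ⟨fun v h => by rcases h with h | h <;> exact absurd h.1 (lt_irrefl _)⟩

/-- A circle graph: the intersection graph of a chord diagram. -/
def IsCircleGraph {V : Type} (G : SimpleGraph V) : Prop := ∃ D : ChordDiagram V, G = D.graph

/-- The (geometric realization of the) independence complex of a finite graph `G`: the points with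
barycentric coordinates `x v ≥ 0` of sum `1` the support of which is an independent set. -/
def IndComplex {V : Type} [Fintype V] (G : SimpleGraph V) : Type :=
  {x : V → ℝ // (∀ v, 0 ≤ x v) ∧ ∑ v, x v = 1 ∧ G.IsIndepSet {v | x v ≠ 0}}

instance {V : Type} [Fintype V] (G : SimpleGraph V) : TopologicalSpace (IndComplex G) :=
  inferInstanceAs (TopologicalSpace (Subtype _))

/-- The sphere `S^d`. -/
abbrev Sph (d : ℕ) : Type := Metric.sphere (0 : EuclideanSpace ℝ (Fin (d + 1))) 1

/-- The base point of `S^d`. -/
noncomputable def base (d : ℕ) : Sph d :=
  ⟨EuclideanSpace.single 0 1, by simp⟩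

/-- The wedge (one-point union) of the spheres `S^{d 0}, ..., S^{d (k-1)}`: the subspace of their
product which consists of the points with at most one coordinate different from the base point.
For `k = 0` this is a point. -/
def Wedge {k : ℕ} (d : Fin k → ℕ) : Type :=
  {x : (i : Fin k) → Sph (d i) // ∀ i j, i ≠ j → x i = base (d i) ∨ x j = base (d j)}

noncomputable instance {k : ℕ} (d : Fin k → ℕ) : TopologicalSpace (Wedge d) :=
  inferInstanceAs (TopologicalSpace (Subtype _))

/-- `X` is homotopy equivalent to a wedge of finitely many spheres. -/
def IsWedgeOfSpheres (X : Type) [TopologicalSpace X] : Prop :=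
  ∃ (k : ℕ) (d : Fin k → ℕ), Nonempty (ContinuousMap.HomotopyEquiv X (Wedge d))

end Pool.Agent.R805.CircG
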