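import Pool.Agent.R805.CircG.Topo

/-!
# A circle graph whose independence complex is not a wedge of spheres

Eight chords: four vertical ones (two crossing pairs) and four horizontal ones (two crossing
pairs); every vertical chord crosses every horizontal one.  The independence complex is the
disjoint union of two circles (4-cycles).
-/

namespace Pool.Agent.R805.CircG

open ContinuousMap

/-- The chord diagram with `8` chords. -/
def D8 : ChordDiagram (Fin 8) where
  a := ![0, 1, 2, 3, 4, 5, 6, 7]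
  b := ![10, 11, 8, 9, 14, 15, 12, 13]
  lt := by decide
  distinct := by decide

/-- Its intersection graph. -/
def G8 : SimpleGraph (Fin 8) := D8.graph

instance : DecidableRel G8.Adj := fun v w =>
  inferInstanceAs (Decidable ((D8.a v < D8.a w ∧ D8.a w < D8.b v ∧ D8.b v < D8.b w) ∨
    (D8.a w < D8.a v ∧ D8.a v < D8.b w ∧ D8.b w < D8.b v)))

theorem prod_zero (x : IndComplex G8) {v w : Fin 8} (h : G8.Adj v w) : x.1 v = 0 ∨ x.1 w = 0 := by
  by_contra hne
  push Not at hne
  have := x.2.2.2 hne.1 hne.2 h.ne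
  exact this h

/-- The weight of the vertical chords. -/
def sA (x : IndComplex G8) : ℝ := x.1 0 + x.1 1 + x.1 2 + x.1 3

theorem sum8 (x : IndComplex G8) :
    x.1 0 + x.1 1 + x.1 2 + x.1 3 + x.1 4 + x.1 5 + x.1 6 + x.1 7 = 1 := by
  have := x.2.2.1
  rw [Fin.sum_univ_eight] at this
  exact this

/-- Either all horizontal coordinates vanish or all vertical ones do. -/
theorem sA_cases (x : IndComplex G8) :
    (x.1 4 = 0 ∧ x.1 5 = 0 ∧ x.1 6 = 0 ∧ x.1 7 = 0) ∨
      (x.1 0 = 0 ∧ x.1 1 = 0 ∧ x.1 2 = 0 ∧ x.1 3 = 0) := by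
  by_cases h : x.1 0 = 0 ∧ x.1 1 = 0 ∧ x.1 2 = 0 ∧ x.1 3 = 0
  · exact Or.inr h
  · left
    have key : ∀ v : Fin 8, G8.Adj v 4 → G8.Adj v 5 → G8.Adj v 6 → G8.Adj v 7 → x.1 v ≠ 0 →
        (x.1 4 = 0 ∧ x.1 5 = 0 ∧ x.1 6 = 0 ∧ x.1 7 = 0) := by
      intro v h4 h5 h6 h7 hv
      exact ⟨(prod_zero x h4).resolve_left hv, (prod_zero x h5).resolve_left hv,
        (prod_zero x h6).resolve_left hv, (prod_zero x h7).resolve_left hv⟩
    by_cases h0 : x.1 0 = 0
    · by_cases h1 : x.1 1 = 0
      · by_cases h2 : x.1 2 = 0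
        · have h3 : x.1 3 ≠ 0 := fun h3 => h ⟨h0, h1, h2, h3⟩
          exact key 3 (by decide) (by decide) (by decide) (by decide) h3
        · exact key 2 (by decide) (by decide) (by decide) (by decide) h2
      · exact key 1 (by decide) (by decide) (by decide) (by decide) h1
    · exact key 0 (by decide) (by decide) (by decide) (by decide) h0

theorem sA_zero_or_one (x : IndComplex G8) : sA x = 1 ∨ sA x = 0 := by
  have hs := sum8 x
  rcases sA_cases x with ⟨h4, h5, h6, h7⟩ | ⟨h0, h1, h2, h3⟩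
  · left; unfold sA; linarith
  · right; unfold sA; linarith

theorem coord_continuous (v : Fin 8) : Continuous fun x : IndComplex G8 => x.1 v :=
  (continuous_apply v).comp continuous_subtype_val

theorem sA_continuous : Continuous sA := by
  unfold sA
  exact (((coord_continuous 0).add (coord_continuous 1)).add (coord_continuous 2)).add
    (coord_continuous 3)

/-- The map to the punctured plane. -/
noncomputable def F8 (x : IndComplex G8) : ℂ :=
  ⟨x.1 0 - x.1 1 + (x.1 4 - x.1 5), x.1 2 - x.1 3 + (x.1 6 - x.1 7)⟩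

theorem F8_ne_zero (x : IndComplex G8) : F8 x ≠ 0 := by
  intro h
  have hre : x.1 0 - x.1 1 + (x.1 4 - x.1 5) = 0 := congrArg Complex.re h
  have him : x.1 2 - x.1 3 + (x.1 6 - x.1 7) = 0 := congrArg Complex.im h
  have hs := sum8 x
  have p01 := prod_zero x (v := 0) (w := 1) (by decide)
  have p23 := prod_zero x (v := 2) (w := 3) (by decide)
  have p45 := prod_zero x (v := 4) (w := 5) (by decide)
  have p67 := prod_zero x (v := 6) (w := 7) (by decide)
  rcases sA_cases x with ⟨h4, h5, h6, h7⟩ | ⟨h0, h1, h2, h3⟩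
  · rw [h4, h5] at hre
    rw [h6, h7] at him
    rcases p01 with h0 | h1 <;> rcases p23 with h2 | h3 <;> linarith
  · rw [h0, h1] at hre
    rw [h2, h3] at him
    rcases p45 with h4 | h5 <;> rcases p67 with h6 | h7 <;> linarith

theorem F8_continuous : Continuous F8 := by
  have h1 : Continuous fun x : IndComplex G8 => x.1 0 - x.1 1 + (x.1 4 - x.1 5) :=
    ((coord_continuous 0).sub (coord_continuous 1)).add
      ((coord_continuous 4).sub (coord_continuous 5))
  have h2 : Continuous fun x : IndComplex G8 => x.1 2 - x.1 3 + (x.1 6 - x.1 7) :=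
    ((coord_continuous 2).sub (coord_continuous 3)).add
      ((coord_continuous 6).sub (coord_continuous 7))
  exact Complex.equivRealProdCLM.symm.continuous.comp (h1.prodMk h2)

/-- The map to the circle. -/
noncomputable def f8 : C(IndComplex G8, Circle) where
  toFun x := ⟨F8 x / (‖F8 x‖ : ℂ), by
    change F8 x / (‖F8 x‖ : ℂ) ∈ Metric.sphere (0 : ℂ) 1
    rw [mem_sphere_zero_iff_norm, norm_div, Complex.norm_real, norm_norm,
      div_self (norm_ne_zero_iff.mpr (F8_ne_zero x))]⟩
  continuous_toFun := by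
    refine Continuous.subtype_mk ?_ _
    refine F8_continuous.div (Complex.continuous_ofReal.comp F8_continuous.norm) ?_
    intro x
    exact_mod_cast norm_ne_zero_iff.mpr (F8_ne_zero x)

theorem indep8 (y : Fin 8 → ℝ) (h01 : y 0 = 0 ∨ y 1 = 0) (h23 : y 2 = 0 ∨ y 3 = 0)
    (h45 : y 4 = 0 ∨ y 5 = 0) (h67 : y 6 = 0 ∨ y 7 = 0)
    (h : (y 4 = 0 ∧ y 5 = 0 ∧ y 6 = 0 ∧ y 7 = 0) ∨ (y 0 = 0 ∧ y 1 = 0 ∧ y 2 = 0 ∧ y 3 = 0)) :
    G8.IsIndepSet {v | y v ≠ 0} := by
  intro v hv w hw _ hadj
  simp only [Set.mem_ofPred_eq] at hv hw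
  have key : ∀ v w : Fin 8, G8.Adj v w → ¬ (
      (v = 0 ∧ w = 1) ∨ (v = 1 ∧ w = 0) ∨ (v = 2 ∧ w = 3) ∨ (v = 3 ∧ w = 2) ∨
      (v = 4 ∧ w = 5) ∨ (v = 5 ∧ w = 4) ∨ (v = 6 ∧ w = 7) ∨ (v = 7 ∧ w = 6)) →
      (v < 4 ∧ 4 ≤ w) ∨ (w < 4 ∧ 4 ≤ v) := by decide
  have hA : ∀ v : Fin 8, v < 4 → v = 0 ∨ v = 1 ∨ v = 2 ∨ v = 3 := by decide
  have hB : ∀ v : Fin 8, 4 ≤ v → v = 4 ∨ v = 5 ∨ v = 6 ∨ v = 7 := by decide
  by_cases hc : ((v = 0 ∧ w = 1) ∨ (v = 1 ∧ w = 0) ∨ (v = 2 ∧ w = 3) ∨ (v = 3 ∧ w = 2) ∨
      (v = 4 ∧ w = 5) ∨ (v = 5 ∧ w = 4) ∨ (v = 6 ∧ w = 7) ∨ (v = 7 ∧ w = 6))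
  · rcases hc with ⟨rfl, rfl⟩ | ⟨rfl, rfl⟩ | ⟨rfl, rfl⟩ | ⟨rfl, rfl⟩ | ⟨rfl, rfl⟩ | ⟨rfl, rfl⟩ |
      ⟨rfl, rfl⟩ | ⟨rfl, rfl⟩
    · exact h01.elim hv hw
    · exact h01.elim hw hv
    · exact h23.elim hv hw
    · exact h23.elim hw hv
    · exact h45.elim hv hw
    · exact h45.elim hw hv
    · exact h67.elim hv hw
    · exact h67.elim hw hv
  · have zA : (y 0 = 0 ∧ y 1 = 0 ∧ y 2 = 0 ∧ y 3 = 0) → ∀ v : Fin 8, v < 4 → y v = 0 := by
      rintro ⟨a0, a1, a2, a3⟩ v hv
      rcases hA v hv with rfl | rfl | rfl | rfl <;> assumption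
    have zB : (y 4 = 0 ∧ y 5 = 0 ∧ y 6 = 0 ∧ y 7 = 0) → ∀ v : Fin 8, 4 ≤ v → y v = 0 := by
      rintro ⟨a0, a1, a2, a3⟩ v hv
      rcases hB v hv with rfl | rfl | rfl | rfl <;> assumption
    rcases key v w hadj hc with ⟨h1, h2⟩ | ⟨h1, h2⟩
    · rcases h with h | h
      · exact hw (zB h w h2)
      · exact hv (zA h v h1)
    · rcases h with h | h
      · exact hv (zB h v h2)
      · exact hw (zA h w h1)

theorem absum_pos (z : Circle) : 0 < |(z : ℂ).re| + |(z : ℂ).im| := by
  rcases eq_or_ne (z : ℂ).re 0 with h | h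
  · rcases eq_or_ne (z : ℂ).im 0 with h' | h'
    · exact absurd (Complex.ext h h') z.coe_ne_zero
    · have := abs_pos.mpr h'
      have := abs_nonneg (z : ℂ).re
      linarith
  · have := abs_pos.mpr h
    have := abs_nonneg (z : ℂ).im
    linarith

theorem max_zero_or (u : ℝ) : max u 0 = 0 ∨ max (-u) 0 = 0 := by
  rcases le_total u 0 with h | h
  · exact Or.inl (max_eq_right h)
  · exact Or.inr (max_eq_right (by linarith))

theorem max_add_max (u : ℝ) : max u 0 + max (-u) 0 = |u| := by
  rcases le_total u 0 with h | h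
  · rw [max_eq_right h, max_eq_left (by linarith), abs_of_nonpos h]; ring
  · rw [max_eq_left h, max_eq_right (by linarith), abs_of_nonneg h]; ring

theorem max_sub_max (u : ℝ) : max u 0 - max (-u) 0 = u := by
  rcases le_total u 0 with h | h
  · rw [max_eq_right h, max_eq_left (by linarith)]; ring
  · rw [max_eq_left h, max_eq_right (by linarith)]; ring

/-- The normalised coordinates. -/
noncomputable def cd (z : Circle) : Fin 4 → ℝ :=
  ![max (z : ℂ).re 0 / (|(z : ℂ).re| + |(z : ℂ).im|),
    max (-(z : ℂ).re) 0 / (|(z : ℂ).re| + |(z : ℂ).im|),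
    max (z : ℂ).im 0 / (|(z : ℂ).re| + |(z : ℂ).im|),
    max (-(z : ℂ).im) 0 / (|(z : ℂ).re| + |(z : ℂ).im|)]

theorem re_continuous : Continuous fun z : Circle => (z : ℂ).re :=
  Complex.continuous_re.comp continuous_subtype_val

theorem im_continuous : Continuous fun z : Circle => (z : ℂ).im :=
  Complex.continuous_im.comp continuous_subtype_val

theorem cd_continuous (i : Fin 4) : Continuous fun z => cd z i := by
  have hn : Continuous fun z : Circle => |(z : ℂ).re| + |(z : ℂ).im| :=
    re_continuous.abs.add im_continuous.abs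
  have hne : ∀ z : Circle, |(z : ℂ).re| + |(z : ℂ).im| ≠ 0 := fun z => (absum_pos z).ne'
  fin_cases i
  · exact (re_continuous.max continuous_const).div hn hne
  · exact (re_continuous.neg.max continuous_const).div hn hne
  · exact (im_continuous.max continuous_const).div hn hne
  · exact (im_continuous.neg.max continuous_const).div hn hne

theorem cd_nonneg (z : Circle) (i : Fin 4) : 0 ≤ cd z i := by
  fin_cases i <;> exact div_nonneg (le_max_right _ _) (absum_pos z).le

theorem cd_sum (z : Circle) : cd z 0 + cd z 1 + cd z 2 + cd z 3 = 1 := by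
  have h1 := max_add_max (z : ℂ).re
  have h2 := max_add_max (z : ℂ).im
  have hp := absum_pos z
  simp only [cd, Matrix.cons_val]
  field_simp
  linarith

theorem cd01 (z : Circle) : cd z 0 = 0 ∨ cd z 1 = 0 := by
  rcases max_zero_or (z : ℂ).re with h | h
  · left; simp [cd, h]
  · right; simp [cd, h]

theorem cd23 (z : Circle) : cd z 2 = 0 ∨ cd z 3 = 0 := by
  rcases max_zero_or (z : ℂ).im with h | h
  · left; simp [cd, h]
  · right; simp [cd, h]

/-- The first circle. -/
noncomputable def loopA : C(Circle, IndComplex G8) where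
  toFun z := ⟨![cd z 0, cd z 1, cd z 2, cd z 3, 0, 0, 0, 0], by
    refine ⟨?_, ?_, ?_⟩
    · intro v
      fin_cases v
      · exact cd_nonneg z 0
      · exact cd_nonneg z 1
      · exact cd_nonneg z 2
      · exact cd_nonneg z 3
      all_goals exact le_refl (0 : ℝ)
    · rw [Fin.sum_univ_eight]
      simp only [Matrix.cons_val]
      have := cd_sum z
      linarith
    · exact indep8 _ (cd01 z) (cd23 z) (Or.inl rfl) (Or.inl rfl) (Or.inl ⟨rfl, rfl, rfl, rfl⟩)⟩
  continuous_toFun := by
    refine Continuous.subtype_mk ?_ _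
    refine continuous_pi fun v => ?_
    fin_cases v
    · exact cd_continuous 0
    · exact cd_continuous 1
    · exact cd_continuous 2
    · exact cd_continuous 3
    all_goals exact continuous_const

/-- The second circle. -/
noncomputable def loopB : C(Circle, IndComplex G8) where
  toFun z := ⟨![0, 0, 0, 0, cd z 0, cd z 1, cd z 2, cd z 3], by
    refine ⟨?_, ?_, ?_⟩
    · intro v
      fin_cases v
      · exact le_refl (0 : ℝ)
      · exact le_refl (0 : ℝ)
      · exact le_refl (0 : ℝ)
      · exact le_refl (0 : ℝ)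
      · exact cd_nonneg z 0
      · exact cd_nonneg z 1
      · exact cd_nonneg z 2
      · exact cd_nonneg z 3
    · rw [Fin.sum_univ_eight]
      simp only [Matrix.cons_val]
      have := cd_sum z
      linarith
    · exact indep8 _ (Or.inl rfl) (Or.inl rfl) (cd01 z) (cd23 z) (Or.inr ⟨rfl, rfl, rfl, rfl⟩)⟩
  continuous_toFun := by
    refine Continuous.subtype_mk ?_ _
    refine continuous_pi fun v => ?_
    fin_cases v
    · exact continuous_const
    · exact continuous_const
    · exact continuous_const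
    · exact continuous_const
    · exact cd_continuous 0
    · exact cd_continuous 1
    · exact cd_continuous 2
    · exact cd_continuous 3

theorem norm_div_pos (z : Circle) {n : ℝ} (hn : 0 < n) {w : ℂ} (hw : w = (z : ℂ) / n) :
    w / (‖w‖ : ℂ) = z := by
  have h1 : ‖w‖ = 1 / n := by
    rw [hw, norm_div, Circle.norm_coe, Complex.norm_real, Real.norm_of_nonneg hn.le]
  rw [h1, hw]
  have : (n : ℂ) ≠ 0 := by exact_mod_cast hn.ne'
  push_cast
  field_simp

theorem f8_loopA (z : Circle) : f8 (loopA z) = z := by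
  apply Circle.ext
  change F8 (loopA z) / (‖F8 (loopA z)‖ : ℂ) = z
  refine norm_div_pos z (absum_pos z) ?_
  have h1 := max_sub_max (z : ℂ).re
  have h2 := max_sub_max (z : ℂ).im
  apply Complex.ext
  · rw [Complex.div_ofReal_re]
    change cd z 0 - cd z 1 + (0 - 0) = _
    simp only [cd, Matrix.cons_val]
    rw [← sub_div, h1]
    ring
  · rw [Complex.div_ofReal_im]
    change cd z 2 - cd z 3 + (0 - 0) = _
    simp only [cd, Matrix.cons_val]
    rw [← sub_div, h2]
    ring

theorem f8_loopB (z : Circle) : f8 (loopB z) = z := by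
  apply Circle.ext
  change F8 (loopB z) / (‖F8 (loopB z)‖ : ℂ) = z
  refine norm_div_pos z (absum_pos z) ?_
  have h1 := max_sub_max (z : ℂ).re
  have h2 := max_sub_max (z : ℂ).im
  apply Complex.ext
  · rw [Complex.div_ofReal_re]
    change 0 - 0 + (cd z 0 - cd z 1) = _
    simp only [cd, Matrix.cons_val]
    rw [← sub_div, h1]
    ring
  · rw [Complex.div_ofReal_im]
    change 0 - 0 + (cd z 2 - cd z 3) = _
    simp only [cd, Matrix.cons_val]
    rw [← sub_div, h2]
    ring

/-- A loop on which `f8` is the identity is not homotopic to a constant loop. -/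
theorem loop_not_null (γ : C(Circle, IndComplex G8)) (hγ : ∀ z, f8 (γ z) = z) (x : IndComplex G8) :
    ¬ (ContinuousMap.const Circle x).Homotopic γ := by
  intro h
  have h1 : (f8.comp (ContinuousMap.const Circle x)).Homotopic (f8.comp γ) :=
    ContinuousMap.Homotopic.comp (ContinuousMap.Homotopic.refl f8) h
  have e1 : f8.comp (ContinuousMap.const Circle x) = ContinuousMap.const Circle (f8 x) := by
    ext z; rfl
  have e2 : f8.comp γ = ContinuousMap.id Circle := by
    ext z
    change ((f8 (γ z) : Circle) : ℂ) = z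
    rw [hγ z]
  rw [e1, e2] at h1
  exact not_null _ h1

/-- **The independence complex is not a wedge of spheres.** -/
theorem not_wedge : ¬ IsWedgeOfSpheres (IndComplex G8) := by
  rintro ⟨k, d, ⟨e⟩⟩
  have hom : (e.invFun.comp e.toFun).Homotopic (ContinuousMap.id (IndComplex G8)) := e.left_inv
  have main : ∀ γ : C(Circle, IndComplex G8), (∀ z, f8 (γ z) = z) →
      ∀ z, Joined ((e.toFun.comp γ) z) (wbase d) := by
    intro γ hγ
    rcases loop_cases d (e.toFun.comp γ) with h | h
    · exact h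
    · exfalso
      have h1 : ((e.invFun.comp e.toFun).comp γ).Homotopic ((ContinuousMap.id _).comp γ) :=
        ContinuousMap.Homotopic.comp hom (ContinuousMap.Homotopic.refl γ)
      have e1 : (e.invFun.comp e.toFun).comp γ
          = ContinuousMap.const Circle (e.invFun ((e.toFun.comp γ) 1)) := by
        ext z
        change e.invFun ((e.toFun.comp γ) z) = e.invFun ((e.toFun.comp γ) 1)
        rw [h z 1]
      have e2 : (ContinuousMap.id (IndComplex G8)).comp γ = γ := ContinuousMap.id_comp γ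
      rw [e1, e2] at h1
      exact loop_not_null γ hγ _ h1
  have jA := main loopA f8_loopA 1
  have jB := main loopB f8_loopB 1
  have jAB : Joined (e.toFun (loopA 1)) (e.toFun (loopB 1)) := jA.trans jB.symm
  have jAB' : Joined (e.invFun (e.toFun (loopA 1))) (e.invFun (e.toFun (loopB 1))) :=
    jAB.map e.invFun.continuous
  obtain ⟨H⟩ := hom
  have jid : ∀ x, Joined (e.invFun (e.toFun x)) x := by
    intro x
    refine ⟨⟨⟨fun t => H (t, x), H.continuous.comp (by fun_prop)⟩, ?_, ?_⟩⟩
    · change H (0, x) = _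
      rw [H.apply_zero]; rfl
    · change H (1, x) = _
      rw [H.apply_one]; rfl
  have jf : Joined (loopA 1) (loopB 1) := (jid _).symm.trans (jAB'.trans (jid _))
  obtain ⟨p⟩ := jf
  have hc : Continuous fun t => sA (p t) := sA_continuous.comp p.continuous
  have h0 : sA (p 0) = 1 := by
    rw [p.source]
    exact cd_sum 1
  have h1 : sA (p 1) = 0 := by
    rw [p.target]
    change (0 : ℝ) + 0 + 0 + 0 = 0
    norm_num
  have hpre : IsPreconnected (Set.range fun t => sA (p t)) := isPreconnected_range hc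
  have : (1 / 2 : ℝ) ∈ Set.range fun t => sA (p t) :=
    hpre.ordConnected.out ⟨1, h1⟩ ⟨0, h0⟩ ⟨by norm_num, by norm_num⟩
  obtain ⟨t, ht⟩ := this
  simp only at ht
  rcases sA_zero_or_one (p t) with h | h
  · rw [h] at ht; norm_num at ht
  · rw [h] at ht; norm_num at ht

end Pool.Agent.R805.CircG
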