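import Pool.Agent.R805.CircG.Defs

/-!
# The circle is not contractible; loops in wedges of spheres
-/

namespace Pool.Agent.R805.CircG

open ContinuousMap

/-- The identity of the circle is not homotopic to a constant map. -/
theorem not_null (c : Circle) :
    ¬ (ContinuousMap.const Circle c).Homotopic (ContinuousMap.id Circle) := by
  rintro ⟨H⟩
  obtain ⟨e, he⟩ : ∃ e : ℝ, Circle.exp e = c := ⟨_, Circle.exp_arg c⟩
  -- lift the homotopy
  let H' : C(unitInterval × Circle, Circle) := ⟨fun p => H p, H.continuous⟩
  have H0 : ∀ z : Circle, H' (0, z) = Circle.exp ((ContinuousMap.const Circle e) z) := by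
    intro z
    change H (0, z) = _
    rw [H.apply_zero]
    simp [he]
  let L := Circle.isCoveringMap_exp.liftHomotopy H' (ContinuousMap.const Circle e) H0
  have hL : ∀ p, Circle.exp (L p) = H' p := fun p =>
    congrFun (Circle.isCoveringMap_exp.liftHomotopy_lifts H' (ContinuousMap.const Circle e) H0) p
  -- a continuous logarithm on the circle
  let g : Circle → ℝ := fun z => L (1, z)
  have gc : Continuous g := L.continuous.comp (by fun_prop)
  have hg : ∀ z, Circle.exp (g z) = z := by
    intro z
    change Circle.exp (L (1, z)) = z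
    rw [hL]
    change H (1, z) = z
    rw [H.apply_one]
    rfl
  -- `h t = g (exp t) - t` is continuous with values in `2πℤ`, hence constant
  let h : ℝ → ℝ := fun t => (g (Circle.exp t) - t) / (2 * Real.pi)
  have hc : Continuous h := by
    have : Continuous fun t : ℝ => g (Circle.exp t) := gc.comp Circle.exp.continuous
    exact (this.sub continuous_id).div_const _
  have hint : ∀ t, ∃ m : ℤ, h t = m := by
    intro t
    obtain ⟨m, hm⟩ := Circle.exp_eq_exp.mp (hg (Circle.exp t))
    refine ⟨m, ?_⟩
    have hpi : (2 * Real.pi) ≠ 0 := by positivity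
    change (g (Circle.exp t) - t) / (2 * Real.pi) = m
    rw [hm]
    field_simp
    ring
  have hconst : h (2 * Real.pi) = h 0 := by
    by_contra hne
    -- intermediate value: some value is not an integer
    obtain ⟨m, hm⟩ := hint (2 * Real.pi)
    obtain ⟨n, hn⟩ := hint 0
    have hmn : m ≠ n := by
      rintro rfl
      exact hne (hm.trans hn.symm)
    have hpre : IsPreconnected (Set.range h) := isPreconnected_range hc
    have hord : (Set.range h).OrdConnected := hpre.ordConnected
    rcases lt_or_gt_of_ne hmn with hlt | hlt
    · have h1 : (m : ℝ) + 1 ≤ n := by exact_mod_cast hlt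
      have : (m : ℝ) + 1 / 2 ∈ Set.range h :=
        hord.out ⟨_, hm⟩ ⟨_, hn⟩ ⟨by linarith, by linarith⟩
      obtain ⟨t, ht⟩ := this
      obtain ⟨k, hk⟩ := hint t
      rw [hk] at ht
      have h2 : ((2 * k : ℤ) : ℝ) = ((2 * m + 1 : ℤ) : ℝ) := by push_cast; linarith
      have h3 : 2 * k = 2 * m + 1 := by exact_mod_cast h2
      omega
    · have h1 : (n : ℝ) + 1 ≤ m := by exact_mod_cast hlt
      have : (n : ℝ) + 1 / 2 ∈ Set.range h :=
        hord.out ⟨_, hn⟩ ⟨_, hm⟩ ⟨by linarith, by linarith⟩
      obtain ⟨t, ht⟩ := this
      obtain ⟨k, hk⟩ := hint t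
      rw [hk] at ht
      have h2 : ((2 * k : ℤ) : ℝ) = ((2 * n + 1 : ℤ) : ℝ) := by push_cast; linarith
      have h3 : 2 * k = 2 * n + 1 := by exact_mod_cast h2
      omega
  have he2 : Circle.exp (2 * Real.pi) = Circle.exp 0 := by
    rw [Circle.exp_eq_exp]
    exact ⟨1, by push_cast; ring⟩
  have hpi : (2 * Real.pi) ≠ 0 := by positivity
  change (g (Circle.exp (2 * Real.pi)) - 2 * Real.pi) / (2 * Real.pi)
    = (g (Circle.exp 0) - 0) / (2 * Real.pi) at hconst
  rw [he2] at hconst
  rw [div_left_inj' hpi] at hconst
  have := Real.pi_pos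
  linarith

/-- The base point of a wedge. -/
noncomputable def wbase {k : ℕ} (d : Fin k → ℕ) : Wedge d :=
  ⟨fun i => base (d i), fun _ _ _ => Or.inl rfl⟩

/-- The inclusion of the sphere number `j` in the wedge. -/
noncomputable def winc {k : ℕ} (d : Fin k → ℕ) (j : Fin k) (y : Sph (d j)) : Wedge d :=
  ⟨Function.update (fun i => base (d i)) j y, by
    intro i i' hne
    by_cases h : i = j
    · right
      rw [Function.update_of_ne (fun h' => hne (h.trans h'.symm))]
    · left
      rw [Function.update_of_ne h]⟩

theorem winc_continuous {k : ℕ} (d : Fin k → ℕ) (j : Fin k) : Continuous (winc d j) := by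
  refine Continuous.subtype_mk ?_ _
  exact continuous_const.update j continuous_id

theorem winc_base {k : ℕ} (d : Fin k → ℕ) (j : Fin k) : winc d j (base (d j)) = wbase d := by
  apply Subtype.ext
  exact Function.update_eq_self j _

/-- A positive dimensional sphere is path connected. -/
theorem sph_joined {d : ℕ} (hd : 1 ≤ d) (x y : Sph d) : Joined x y := by
  have h : 1 < Module.rank ℝ (EuclideanSpace ℝ (Fin (d + 1))) := by
    rw [rank_eq_card_basis (EuclideanSpace.basisFun (Fin (d + 1)) ℝ).toBasis, Fintype.card_fin]
    exact_mod_cast (by omega : 1 < d + 1)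
  have hc : IsPathConnected (Metric.sphere (0 : EuclideanSpace ℝ (Fin (d + 1))) 1) :=
    isPathConnected_sphere h 0 zero_le_one
  exact (hc.joinedIn x.1 x.2 y.1 y.2).joined_subtype

/-- In `S^0` the coordinate is `1` or `-1`. -/
theorem sph_zero_coord {d : ℕ} (hd : d = 0) (x : Sph d) :
    x.1 0 = 1 ∨ x.1 0 = -1 := by
  subst hd
  have h := x.2
  rw [mem_sphere_zero_iff_norm, EuclideanSpace.norm_eq] at h
  simp only [Nat.reduceAdd, Fin.sum_univ_one, Fin.isValue, Real.norm_eq_abs, sq_abs] at h
  have h2 : (x.1 0) ^ 2 = 1 := by
    have h3 : Real.sqrt ((x.1 0) ^ 2) = 1 := h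
    rw [Real.sqrt_eq_one] at h3
    exact h3
  have h4 : (x.1 0 - 1) * (x.1 0 + 1) = 0 := by ring_nf; linarith
  rcases mul_eq_zero.mp h4 with h5 | h5
  · left; linarith
  · right; linarith

theorem sph_zero_base {d : ℕ} (hd : d = 0) (x : Sph d) (h : x.1 0 = 1) : x = base d := by
  subst hd
  apply Subtype.ext
  ext i
  have hi : i = 0 := Fin.ext (by have := i.2; simp only [Fin.val_zero]; omega)
  subst hi
  simp [base, h]

/-- A point of a wedge is joined to the base point, or one of its coordinates is the point
different from the base point of a sphere `S^0`. -/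
theorem wedge_cases {k : ℕ} (d : Fin k → ℕ) (w : Wedge d) :
    Joined w (wbase d) ∨ ∃ j, d j = 0 ∧ w.1 j ≠ base (d j) := by
  by_cases h : ∃ j, w.1 j ≠ base (d j)
  · obtain ⟨j, hj⟩ := h
    by_cases hd : d j = 0
    · exact Or.inr ⟨j, hd, hj⟩
    · left
      have hw : w = winc d j (w.1 j) := by
        apply Subtype.ext
        funext i
        change w.1 i = Function.update (fun i => base (d i)) j (w.1 j) i
        by_cases hij : i = j
        · subst hij
          rw [Function.update_self]
        · rw [Function.update_of_ne hij]
          rcases w.2 i j hij with h1 | h1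
          · exact h1
          · exact absurd h1 hj
      rw [hw, ← winc_base d j]
      exact (sph_joined (by omega) (w.1 j) (base (d j))).map (winc_continuous d j)
  · push Not at h
    left
    have : w = wbase d := by
      apply Subtype.ext
      funext i
      exact h i
    rw [this]

/-- A loop in a wedge of spheres is constant or in the path component of the base point. -/
theorem loop_cases {k : ℕ} (d : Fin k → ℕ) (γ : C(Circle, Wedge d)) :
    (∀ z, Joined (γ z) (wbase d)) ∨ ∀ z z', γ z = γ z' := by
  by_cases h : ∀ z, Joined (γ z) (wbase d)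
  · exact Or.inl h
  · right
    push Not at h
    obtain ⟨z0, hz0⟩ := h
    rcases wedge_cases d (γ z0) with h1 | ⟨j, hd, hj⟩
    · exact absurd h1 hz0
    · -- the coordinate `j` is constant
      have hcont : Continuous fun z => (((γ z).1 j).1 : EuclideanSpace ℝ (Fin (d j + 1))) 0 := by
        have h1 : Continuous fun z => (γ z).1 := continuous_subtype_val.comp γ.continuous
        have h2 : Continuous fun z => (γ z).1 j := (continuous_apply j).comp h1
        have h3 : Continuous fun z => ((γ z).1 j).1 := continuous_subtype_val.comp h2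
        exact (EuclideanSpace.proj (𝕜 := ℝ) (0 : Fin (d j + 1))).continuous.comp h3
      have hneg : (((γ z0).1 j).1 : EuclideanSpace ℝ (Fin (d j + 1))) 0 = -1 := by
        rcases sph_zero_coord hd ((γ z0).1 j) with h1 | h1
        · exact absurd (sph_zero_base hd _ h1) hj
        · exact h1
      have hall : ∀ z, (((γ z).1 j).1 : EuclideanSpace ℝ (Fin (d j + 1))) 0 = -1 := by
        intro z
        rcases sph_zero_coord hd ((γ z).1 j) with h1 | h1
        · exfalso
          have hpre : IsPreconnected (Set.range fun z =>
              (((γ z).1 j).1 : EuclideanSpace ℝ (Fin (d j + 1))) 0) := isPreconnected_range hcont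
          have : (0 : ℝ) ∈ Set.range fun z =>
              (((γ z).1 j).1 : EuclideanSpace ℝ (Fin (d j + 1))) 0 :=
            hpre.ordConnected.out ⟨z0, hneg⟩ ⟨z, h1⟩ ⟨by norm_num, by norm_num⟩
          obtain ⟨y, hy⟩ := this
          rcases sph_zero_coord hd ((γ y).1 j) with h2 | h2
          · simp only at hy; rw [h2] at hy; norm_num at hy
          · simp only at hy; rw [h2] at hy; norm_num at hy
        · exact h1
      have hne : ∀ z, (γ z).1 j ≠ base (d j) := by
        intro z hz
        have h1 := hall z
        rw [hz] at h1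
        simp [base] at h1
        norm_num at h1
      have hother : ∀ z i, i ≠ j → (γ z).1 i = base (d i) := by
        intro z i hij
        rcases (γ z).2 i j hij with h1 | h1
        · exact h1
        · exact absurd h1 (hne z)
      intro z z'
      apply Subtype.ext
      funext i
      by_cases hij : i = j
      · subst hij
        apply Subtype.ext
        ext l
        have hl : l = 0 := by
          exact Fin.ext (by have := l.2; simp only [Fin.val_zero]; omega)
        subst hl
        rw [hall z, hall z']
      · rw [hother z i hij, hother z' i hij]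

end Pool.Agent.R805.CircG
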